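import Pool.Agent.H960.FV.Bas

/-! Covering of a connected set of lattice points by a short walk. -/

set_option autoImplicit false

open H960FV

namespace Pool.Agent.H505.FV

variable {d : ℕ}

lemma exit {P : Finset (Z d)} {q : ℕ} (Q : Finset (Z d)) {w0 w : Z d}
    (h : Relation.ReflTransGen (fun a b : Z d => a ∈ P ∧ b ∈ P ∧ b - a ∈ bx d q) w0 w)
    (h0 : w0 ∈ Q) (hw : w ∉ Q) : ∃ a b : Z d, a ∈ Q ∧ b ∈ P ∧ b ∉ Q ∧ b - a ∈ bx d q := by
  induction h with
  | refl => exact absurd h0 hw
  | tail h1 h2 ih =>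
    rename_i b c
    by_cases hb : b ∈ Q
    · exact ⟨b, c, hb, h2.2.1, hw, h2.2.2⟩
    · exact ih hb

lemma grow {P : Finset (Z d)} {q : ℕ} {w0 : Z d} (h0 : w0 ∈ P)
    (h : ∀ w ∈ P, Relation.ReflTransGen
      (fun a b : Z d => a ∈ P ∧ b ∈ P ∧ b - a ∈ bx d q) w0 w) (m : ℕ) (hm : m + 1 ≤ P.card) :
    ∃ (Q : Finset (Z d)) (v : ℕ → Z d), Q ⊆ P ∧ w0 ∈ Q ∧ Q.card = m + 1 ∧ v 0 = w0 ∧
      (∀ s, v (s + 1) - v s ∈ bx d q) ∧ ∀ w ∈ Q, ∃ s ≤ 2 * m, v s = w := by
  classical
  induction m with
  | zero =>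
    refine ⟨{w0}, fun _ => w0, ?_, Finset.mem_singleton_self _, Finset.card_singleton _, rfl, ?_, ?_⟩
    · intro x hx
      rw [Finset.mem_singleton] at hx
      rw [hx]; exact h0
    · intro s
      rw [sub_self]
      exact zero_mem_bx
    · intro w hw
      rw [Finset.mem_singleton] at hw
      exact ⟨0, le_refl _, hw.symm⟩
  | succ m ih =>
    obtain ⟨Q, v, hQP, hwQ, hcard, hv0, hv, hcov⟩ := ih (by omega)
    have hex : ∃ w ∈ P, w ∉ Q := by
      by_contra hcon
      push Not at hcon
      have := Finset.card_le_card (show P ⊆ Q from hcon)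
      omega
    obtain ⟨w, hwP, hwnQ⟩ := hex
    obtain ⟨a, b, haQ, hbP, hbQ, hab⟩ := exit Q (h w hwP) hwQ hwnQ
    obtain ⟨s0, hs0, hvs0⟩ := hcov a haQ
    refine ⟨insert b Q, fun s => if s ≤ s0 then v s else if s = s0 + 1 then b else v (s - 2),
      ?_, Finset.mem_insert_of_mem hwQ, ?_, ?_, ?_, ?_⟩
    · intro x hx
      rcases Finset.mem_insert.1 hx with rfl | hx
      · exact hbP
      · exact hQP hx
    · rw [Finset.card_insert_of_notMem hbQ, hcard]
    · simp [hv0]
    · intro s
      change (if s + 1 ≤ s0 then v (s + 1) else if s + 1 = s0 + 1 then b else v (s + 1 - 2)) -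
        (if s ≤ s0 then v s else if s = s0 + 1 then b else v (s - 2)) ∈ bx d q
      rcases lt_trichotomy s s0 with h1 | h1 | h1
      · rw [if_pos (by omega), if_pos h1.le]
        exact hv s
      · rw [if_neg (by omega), if_pos (by omega), if_pos (by omega), h1, hvs0]
        exact hab
      · rw [if_neg (by omega), if_neg (by omega), if_neg (by omega)]
        by_cases h2 : s = s0 + 1
        · rw [if_pos h2]
          have h3 : s + 1 - 2 = s0 := by omega
          rw [h3, hvs0]
          exact bx_sub_comm hab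
        · rw [if_neg h2]
          have h3 : s + 1 - 2 = (s - 2) + 1 := by omega
          rw [h3]
          exact hv _
    · intro x hx
      rcases Finset.mem_insert.1 hx with rfl | hx
      · refine ⟨s0 + 1, by omega, ?_⟩
        change (if s0 + 1 ≤ s0 then v (s0 + 1) else if s0 + 1 = s0 + 1 then x
          else v (s0 + 1 - 2)) = x
        rw [if_neg (by omega), if_pos rfl]
      · obtain ⟨s, hs, hvs⟩ := hcov x hx
        by_cases h1 : s ≤ s0
        · refine ⟨s, by omega, ?_⟩
          change (if s ≤ s0 then v s else if s = s0 + 1 then b else v (s - 2)) = x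
          rw [if_pos h1, hvs]
        · refine ⟨s + 2, by omega, ?_⟩
          change (if s + 2 ≤ s0 then v (s + 2) else if s + 2 = s0 + 1 then b
            else v (s + 2 - 2)) = x
          rw [if_neg (by omega), if_neg (by omega), Nat.add_sub_cancel, hvs]

lemma walk_dist {q : ℕ} {v : ℕ → Z d} (hv : ∀ s, v (s + 1) - v s ∈ bx d q) (s k : ℕ) :
    v (s + k) - v s ∈ bx d (q * k) := by
  induction k with
  | zero => rw [add_zero, sub_self]; exact zero_mem_bx
  | succ k ih =>
    have h1 := bx_trans (hv (s + k)) ih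
    have h2 : q + q * k = q * (k + 1) := by ring
    rw [h2] at h1
    exact h1

/-- covering of a connected set by a short walk -/
theorem T3 : S_T3 := by
  intro d q l n P w0 hl hP h0 h
  have hc : 1 ≤ P.card := Finset.card_pos.2 ⟨w0, h0⟩
  obtain ⟨Q, v, hQP, -, hcard, hv0, hv, hcov⟩ := grow h0 h (P.card - 1) (by omega)
  have hQ : Q = P := Finset.eq_of_subset_of_card_le hQP (by omega)
  refine ⟨fun i => v (i * l), ?_, ?_, ?_⟩
  · change v (0 * l) = w0
    rw [zero_mul, hv0]
  · intro i
    change v ((i + 1) * l) - v (i * l) ∈ bx d (q * l)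
    rw [add_mul, one_mul]
    exact walk_dist hv _ _
  · intro w hw
    rw [← hQ] at hw
    obtain ⟨s, hs, hvs⟩ := hcov w hw
    refine ⟨s / l, Nat.div_le_div_right (by omega), ?_⟩
    change w - v (s / l * l) ∈ bx d (q * l)
    have h1 : v (s / l * l + s % l) - v (s / l * l) ∈ bx d (q * (s % l)) := walk_dist hv _ _
    have h2 : s / l * l + s % l = s := by
      rw [mul_comm]; exact Nat.div_add_mod s l
    rw [h2, hvs] at h1
    exact bx_mono (Nat.mul_le_mul_left q (Nat.mod_lt s (by omega)).le) h1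

end Pool.Agent.H505.FV
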